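import Mathlib
import Pool.Agent.H17.Semi

namespace Pool.Agent.Results.MP_3bb15c_gt.Neg

open Set Filter Topology Pool.Agent.H17.Semi

/-- s-completeness of a topological semilattice. -/
def SComplete (X : Type) [TopologicalSpace X] [SemilatticeInf X] : Prop :=
  (∀ S : Set X, S.Nonempty → (∀ a ∈ S, ∀ b ∈ S, a ⊓ b ∈ S) →
    ∃ m, IsGLB S m ∧ m ∈ closure {x | ∃ a ∈ S, a ≤ x}) ∧
  ∀ C : Set X, C.Nonempty → IsChain (· ≤ ·) C →
    ∃ m, IsLUB C m ∧ m ∈ closure {x | ∃ a ∈ C, x ≤ a}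

theorem result : ∃ (X : Type) (_ : SemilatticeInf X) (_ : TopologicalSpace X),
    Continuous (fun p : X × X => p.1 ⊓ p.2) ∧ T2Space X ∧ RegularSpace X ∧ SComplete X ∧
      ∃ (Y : Type) (_ : SemilatticeInf Y) (_ : TopologicalSpace Y),
        Continuous (fun p : Y × Y => p.1 ⊓ p.2) ∧ T2Space Y ∧ ∃ h : X → Y, Continuous h ∧
          (∀ a b, h (a ⊓ b) = h a ⊓ h b) ∧ ¬ IsClosed (range h) := by
  obtain ⟨tX, hX⟩ := topX
  obtain ⟨tY, hY⟩ := topY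
  have hc : Continuous (fun z : X => (z.1 : Y)) := continuous_iff_continuousAt.2 fun z =>
    ((hX z).tendsto_iff (hY _)).2 fun k _ => ⟨k, trivial, fun w hw => NX_sub z k hw⟩
  have h2 : T2Space Y := t2Space_iff_disjoint_nhds.2 fun z w h =>
    ((hY z).disjoint_iff (hY w)).2 (let ⟨k, hk⟩ := NY_sep h; ⟨k, trivial, k, trivial, hk⟩)
  refine ⟨X, inferInstance, tX, continuous_iff_continuousAt.2 fun p => ?_,
    .of_injective_continuous Subtype.val_injective hc, ?_, ⟨fun S h1 h2 => ?_, fun C h1 h2 => ?_⟩,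
    Y, inferInstance, tY, continuous_iff_continuousAt.2 fun p => ?_, h2, fun z : X => (z.1 : Y), hc,
    fun _ _ => rfl, fun h => ?_⟩
  · exact (((hX p.1).prod_nhds (hX p.2)).tendsto_iff (hX _)).2 fun k _ =>
      ⟨(k, k), ⟨trivial, trivial⟩, fun q hq => NX_inf _ _ k hq.1 hq.2⟩
  · refine .of_hasBasis hX fun z k _ => isOpen_compl_iff.1 (isOpen_iff_mem_nhds.2 fun w hw => ?_)
    obtain ⟨j, hj⟩ := NX_closed z w k hw
    exact (hX w).mem_iff.2 ⟨j, trivial, hj⟩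
  · obtain ⟨m, h3, h4⟩ := glb S h1 h2
    exact ⟨m, h3, (mem_closure_iff_nhds_basis (hX m)).2 fun k _ =>
      let ⟨s, hs, hs'⟩ := h4 k; ⟨s, ⟨s, hs', le_rfl⟩, hs⟩⟩
  · obtain ⟨m, h3, h4⟩ := lub C h1 h2
    exact ⟨m, h3, (mem_closure_iff_nhds_basis (hX m)).2 fun k _ =>
      let ⟨s, hs, hs'⟩ := h4 k; ⟨s, hs', hs⟩⟩
  · exact (((hY p.1).prod_nhds (hY p.2)).tendsto_iff (hY _)).2 fun k _ =>
      ⟨(k + 1, k + 1), ⟨trivial, trivial⟩, fun q hq => NY_inf _ _ k hq.1 hq.2⟩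
  · obtain ⟨x, hx⟩ : top ∈ range (fun z : X => (z.1 : Y)) := h.closure_subset
      ((mem_closure_iff_nhds_basis (hY top)).2 fun k _ =>
        let ⟨x, hx⟩ := top_near k; ⟨_, ⟨x, rfl⟩, hx⟩)
    exact x.2 hx

end Pool.Agent.Results.MP_3bb15c_gt.Neg
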